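import Pool.Agent.Helper42.RZ2.Basic
import Pool.Agent.Helper42.RZ2.St.R1
import Pool.Agent.Helper42.RZ2.St.R2
import Pool.Agent.Helper42.RZ2.St.R3

/-! # RZ2-R4b: uniform bounds for the cell differences -/

set_option autoImplicit false

open MeasureTheory Set Metric Filter Topology
open scoped ENNReal

namespace Pool.Agent.Helper59.RZ2

open Pool.Agent.Helper42.RZ Pool.Agent.Helper42.RZ2

theorem R4b_dt_le (z b : ℂ) : |dt z b| ≤ 2 * (‖z‖ * ‖b‖) := by
  have h1 := Complex.abs_re_le_norm z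
  have h2 := Complex.abs_im_le_norm z
  have h3 := Complex.abs_re_le_norm b
  have h4 := Complex.abs_im_le_norm b
  unfold dt
  have h5 : |z.re * b.im - z.im * b.re| ≤ |z.re * b.im| + |z.im * b.re| := abs_sub _ _
  rw [abs_mul, abs_mul] at h5
  have h6 : |z.re| * |b.im| ≤ ‖z‖ * ‖b‖ := mul_le_mul h1 h4 (abs_nonneg _) (norm_nonneg _)
  have h7 : |z.im| * |b.re| ≤ ‖z‖ * ‖b‖ := mul_le_mul h2 h3 (abs_nonneg _) (norm_nonneg _)
  linarith

theorem R4b_dt_lv1 (a b : ℂ) (k : ℤ × ℤ) : dt (lv a b k) b = k.1 * dt a b := by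
  unfold dt lv
  simp
  ring

theorem R4b_dt_lv2 (a b : ℂ) (k : ℤ × ℤ) : dt (lv a b k) a = -(k.2 * dt a b) := by
  unfold dt lv
  simp
  ring

/-- lower bound for lattice vectors -/
theorem R4b_lower {a b : ℂ} (h : dt a b ≠ 0) : ∃ c : ℝ, 0 < c ∧ ∀ k : ℤ × ℤ,
    c * ‖k‖ ≤ ‖lv a b k‖ := by
  have hpos : 0 < |dt a b| := abs_pos.2 h
  have hM : 0 < ‖a‖ + ‖b‖ := by
    by_contra hcon
    push Not at hcon
    have ha : ‖a‖ = 0 := le_antisymm (by linarith [norm_nonneg b]) (norm_nonneg a)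
    have := R4b_dt_le a b
    rw [ha, zero_mul, mul_zero] at this
    linarith
  refine ⟨|dt a b| / (2 * (‖a‖ + ‖b‖)), by positivity, fun k => ?_⟩
  rw [div_mul_eq_mul_div, div_le_iff₀ (by positivity)]
  have h1 := R4b_dt_le (lv a b k) b
  have h2 := R4b_dt_le (lv a b k) a
  rw [R4b_dt_lv1, abs_mul] at h1
  rw [R4b_dt_lv2, abs_neg, abs_mul] at h2
  have hk : ‖k‖ = max |(k.1 : ℝ)| |(k.2 : ℝ)| := by
    rw [Prod.norm_def, Int.norm_eq_abs, Int.norm_eq_abs]
  rw [hk]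
  have hn := norm_nonneg (lv a b k)
  have ha := norm_nonneg a
  have hb := norm_nonneg b
  rcases max_cases |(k.1 : ℝ)| |(k.2 : ℝ)| with ⟨h3, _⟩ | ⟨h3, _⟩
  · rw [h3]
    nlinarith [mul_nonneg hn ha]
  · rw [h3]
    nlinarith [mul_nonneg hn hb]

theorem R4b_summable {p : ℝ} (hp : 2 < p) : Summable (fun k : ℤ × ℤ => ‖k‖ ^ (-p)) := by
  have h := EisensteinSeries.summable_one_div_norm_rpow hp
  rw [← (finTwoArrowEquiv ℤ).symm.summable_iff] at h
  refine h.congr (fun k => ?_)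
  simp only [Function.comp_apply, finTwoArrowEquiv_symm_apply]
  congr 1
  rw [EisensteinSeries.norm_eq_max_natAbs, Prod.norm_def, Int.norm_eq_abs, Int.norm_eq_abs]
  simp [Nat.cast_natAbs]

theorem diff_bound {s : ℝ} (h0 : 0 < s) (h2 : s < 2) {a b : ℂ} (h : dt a b ≠ 0) (R : ℝ) :
    ∃ (g : ℤ × ℤ → ℝ) (F : Finset (ℤ × ℤ)), Summable g ∧ ∀ x : ℂ, ‖x‖ ≤ R →
      ∀ w : ℝ, 0 ≤ w → w ≤ 1 → ∀ k : ℤ × ℤ, k ∉ F →
      |ph s w ‖x + lv a b k‖ - ∫ u in Sq, ph s w ‖x + lv a b k + (u.1 * a + u.2 * b)‖| ≤ g k := by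
  obtain ⟨c, hc, hlow⟩ := R4b_lower h
  obtain ⟨C, R₀, hC, hR₀, hcd⟩ := cell_diff h0 h2 a b
  obtain ⟨N, hN⟩ := exists_nat_gt (2 * (|R| + R₀) / c)
  refine ⟨fun k => C * ((c / 2) ^ (-(s + 2)) * ‖k‖ ^ (-(s + 2))),
    Finset.Icc (-(N : ℤ)) N ×ˢ Finset.Icc (-(N : ℤ)) N, ?_, ?_⟩
  · exact ((R4b_summable (by linarith : 2 < s + 2)).mul_left _).mul_left _
  · intro x hx w hw0 hw1 k hk
    have hkN : (N : ℝ) ≤ ‖k‖ := by
      by_contra hcon
      push Not at hcon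
      apply hk
      rw [Prod.norm_def, Int.norm_eq_abs, Int.norm_eq_abs] at hcon
      have h3 := lt_of_le_of_lt (le_max_left _ _) hcon
      have h4 := lt_of_le_of_lt (le_max_right _ _) hcon
      rw [Finset.mem_product, Finset.mem_Icc, Finset.mem_Icc]
      have h5 : |k.1| ≤ (N : ℤ) := by exact_mod_cast h3.le
      have h6 : |k.2| ≤ (N : ℤ) := by exact_mod_cast h4.le
      rw [abs_le] at h5 h6
      exact ⟨h5, h6⟩
    have h7 : 2 * (|R| + R₀) < c * ‖k‖ := by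
      have h8 : 2 * (|R| + R₀) / c < ‖k‖ := lt_of_lt_of_le hN hkN
      rw [div_lt_iff₀ hc] at h8
      linarith
    have hRx : ‖x‖ ≤ |R| := hx.trans (le_abs_self R)
    have h9 : c / 2 * ‖k‖ ≤ ‖x + lv a b k‖ := by
      have h10 : ‖lv a b k‖ ≤ ‖x + lv a b k‖ + ‖x‖ := by
        have : lv a b k = (x + lv a b k) - x := by ring
        calc ‖lv a b k‖ = ‖(x + lv a b k) - x‖ := by rw [← this]
          _ ≤ ‖x + lv a b k‖ + ‖x‖ := norm_sub_le _ _
      have := hlow k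
      linarith
    have h11 : R₀ ≤ ‖x + lv a b k‖ := by
      have := abs_nonneg R
      linarith
    refine (hcd w hw0 hw1 (x + lv a b k) h11).trans ?_
    apply mul_le_mul_of_nonneg_left _ hC.le
    have hk0 : 0 < ‖k‖ := by
      by_contra hcon
      push Not at hcon
      have : c * ‖k‖ ≤ 0 := mul_nonpos_of_nonneg_of_nonpos hc.le hcon
      have := abs_nonneg R
      linarith
    rw [← Real.mul_rpow (by positivity) hk0.le]
    exact Real.rpow_le_rpow_of_nonpos (by positivity) h9 (by linarith)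

theorem cell_bound {s : ℝ} (h0 : 0 < s) (h2 : s < 2) {a b : ℂ} (h : dt a b ≠ 0) :
    ∃ C : ℝ, 0 < C ∧ ∀ y : ℂ,
      IntegrableOn (fun u : ℝ × ℝ => K s ‖y + (u.1 * a + u.2 * b)‖) Sq ∧
      ∫ u in Sq, K s ‖y + (u.1 * a + u.2 * b)‖ ≤ C := by
  have hKm : Measurable (fun r : ℝ => ENNReal.ofReal (K s r)) := by
    unfold K
    exact (measurable_id.pow_const _).ennreal_ofReal
  set f1 : ℝ → ℝ≥0∞ := (Iio (1 : ℝ)).indicator (fun r => ENNReal.ofReal (K s r)) with hf1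
  have hf1m : Measurable f1 := hKm.indicator measurableSet_Iio
  have hle : ∀ r : ℝ, 0 ≤ r → ENNReal.ofReal (K s r) ≤ f1 r + 1 := by
    intro r hr
    by_cases hr1 : r < 1
    · rw [hf1, indicator_of_mem (show r ∈ Iio (1 : ℝ) from hr1)]
      exact le_self_add
    · refine le_trans ?_ le_add_self
      rw [← ENNReal.ofReal_one]
      apply ENNReal.ofReal_le_ofReal
      unfold K
      exact Real.rpow_le_one_of_one_le_of_nonpos (not_lt.1 hr1) (by linarith)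
  -- total mass of `f1`
  have hmass : ∫⁻ z : ℂ, f1 ‖z‖ < ∞ := by
    rw [radial hf1m]
    apply ENNReal.mul_lt_top ENNReal.ofReal_lt_top
    have h3 : IntegrableOn (fun r : ℝ => r ^ (1 - s)) (Ioo 0 1) := by
      rw [intervalIntegral.integrableOn_Ioo_rpow_iff zero_lt_one]
      linarith
    have h4 : ∫⁻ r in Ioo (0 : ℝ) 1, ENNReal.ofReal (r ^ (1 - s)) < ∞ := by
      rw [← hasFiniteIntegral_iff_ofReal]
      · exact h3.2
      · filter_upwards [ae_restrict_mem measurableSet_Ioo] with r hr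
        exact Real.rpow_nonneg hr.1.le _
    refine lt_of_le_of_lt ?_ h4
    have h5 : ∫⁻ r in Ioi (0 : ℝ), ENNReal.ofReal r * f1 r =
        ∫⁻ r in Ioi (0 : ℝ), (Ioo (0 : ℝ) 1).indicator
          (fun r => ENNReal.ofReal (r ^ (1 - s))) r := by
      apply setLIntegral_congr_fun measurableSet_Ioi
      intro r hr
      have hr : 0 < r := hr
      by_cases hr1 : r < 1
      · simp only [hf1]
        rw [indicator_of_mem (show r ∈ Iio (1 : ℝ) from hr1),
          indicator_of_mem (show r ∈ Ioo (0 : ℝ) 1 from ⟨hr, hr1⟩),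
          ← ENNReal.ofReal_mul hr.le]
        congr 1
        unfold K
        rw [sub_eq_add_neg, Real.rpow_add hr, Real.rpow_one]
      · simp only [hf1]
        rw [indicator_of_notMem (show r ∉ Iio (1 : ℝ) from hr1),
          indicator_of_notMem (fun h' : r ∈ Ioo (0 : ℝ) 1 => hr1 h'.2), mul_zero]
    rw [h5, setLIntegral_indicator measurableSet_Ioo]
    exact lintegral_mono_set inter_subset_left
  set A : ℝ≥0∞ := ENNReal.ofReal |dt a b|⁻¹ * ∫⁻ z : ℂ, f1 ‖z‖ with hA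
  have hAtop : A < ∞ := ENNReal.mul_lt_top ENNReal.ofReal_lt_top hmass
  refine ⟨A.toReal + 1, by positivity, fun y => ?_⟩
  have hm : Measurable (fun u : ℝ × ℝ => y + ((u.1 : ℂ) * a + (u.2 : ℂ) * b)) := by fun_prop
  have hm2 : Measurable (fun u : ℝ × ℝ => K s ‖y + ((u.1 : ℂ) * a + (u.2 : ℂ) * b)‖) := by
    unfold K
    exact (hm.norm).pow_const _
  have hbound : ∫⁻ u in Sq, ENNReal.ofReal (K s ‖y + ((u.1 : ℂ) * a + (u.2 : ℂ) * b)‖) ≤
      A + 1 := by
    calc ∫⁻ u in Sq, ENNReal.ofReal (K s ‖y + ((u.1 : ℂ) * a + (u.2 : ℂ) * b)‖)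
        ≤ ∫⁻ u in Sq, (f1 ‖y + ((u.1 : ℂ) * a + (u.2 : ℂ) * b)‖ + 1) :=
          lintegral_mono (fun u => hle _ (norm_nonneg _))
      _ = (∫⁻ u in Sq, f1 ‖y + ((u.1 : ℂ) * a + (u.2 : ℂ) * b)‖) + 1 := by
          rw [lintegral_add_right _ measurable_const, setLIntegral_const, volume_Sq, one_mul]
      _ ≤ A + 1 := by
          gcongr
          have ht := tiling h y (f := fun z => f1 ‖z‖) (hf1m.comp measurable_norm)
          rw [hA, ← ht]
          have h0k := ENNReal.le_tsum (f := fun k : ℤ × ℤ =>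
            ∫⁻ u in Sq, f1 ‖y + lv a b k + ((u.1 : ℂ) * a + (u.2 : ℂ) * b)‖) (0, 0)
          refine le_trans (le_of_eq ?_) h0k
          have : lv a b (0, 0) = 0 := by simp [lv]
          rw [this, add_zero]
  have hnn : ∀ u : ℝ × ℝ, 0 ≤ K s ‖y + ((u.1 : ℂ) * a + (u.2 : ℂ) * b)‖ := fun u =>
    Real.rpow_nonneg (norm_nonneg _) _
  have hint : IntegrableOn (fun u : ℝ × ℝ => K s ‖y + ((u.1 : ℂ) * a + (u.2 : ℂ) * b)‖) Sq := by
    refine ⟨hm2.aestronglyMeasurable, ?_⟩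
    rw [hasFiniteIntegral_iff_ofReal (Filter.Eventually.of_forall hnn)]
    exact lt_of_le_of_lt hbound (ENNReal.add_lt_top.2 ⟨hAtop, ENNReal.one_lt_top⟩)
  refine ⟨hint, ?_⟩
  rw [integral_eq_lintegral_of_nonneg_ae (Filter.Eventually.of_forall hnn)
    hm2.aestronglyMeasurable]
  have h6 : (A + 1).toReal = A.toReal + 1 := by
    rw [ENNReal.toReal_add hAtop.ne ENNReal.one_ne_top, ENNReal.toReal_one]
  rw [← h6]
  exact ENNReal.toReal_mono (ENNReal.add_lt_top.2 ⟨hAtop, ENNReal.one_lt_top⟩).ne hbound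

end Pool.Agent.Helper59.RZ2
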